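import Pool.Agent.Helper76.FT.Chain4

/-! # MP_39e2b7_an : the leaves of a foliated analytic twist map of the cylinder are analytic

The statement of the problem on the cylinder `𝕋 × ℝ` itself. -/

set_option autoImplicit false

namespace Pool.Agent.Results.MP_39e2b7_an.AnalyticLeaves

open Set

/-- The infinite cylinder `A = 𝕋 × ℝ`, `𝕋 = ℝ/ℤ`. -/
abbrev Cyl : Type := UnitAddCircle × ℝ

/-- The universal covering `ℝ × ℝ → A`. -/
def cov (p : ℝ × ℝ) : Cyl := ((p.1 : UnitAddCircle), p.2)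

/-- An analytic twist map: a homeomorphism `f` of the cylinder, homotopic to the identity, with a
real-analytic lift `F = (X, Y)` with Jacobian determinant one (so `f` preserves the area form and is
an analytic diffeomorphism) and `∂X/∂y > 0`. -/
def IsAnalyticTwistMap (f : Cyl ≃ₜ Cyl) : Prop :=
  ContinuousMap.Homotopic (ContinuousMap.id Cyl) (f : C(Cyl, Cyl)) ∧
    ∃ F : ℝ × ℝ → ℝ × ℝ, (∀ p, cov (F p) = f (cov p)) ∧ AnalyticOnNhd ℝ F univ ∧
      (∀ p, LinearMap.det (fderiv ℝ F p : ℝ × ℝ →ₗ[ℝ] ℝ × ℝ) = 1) ∧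
      ∀ x y : ℝ, 0 < deriv (fun t : ℝ => (F (x, t)).1) y

/-- An invariant curve: a set with `f(Γ) = Γ` which is the graph of a continuous function on the
circle. -/
def IsInvariantCurve (f : Cyl ≃ₜ Cyl) (Γ : Set Cyl) : Prop :=
  f '' Γ = Γ ∧ ∃ γ : UnitAddCircle → ℝ, Continuous γ ∧ Γ = {a | a.2 = γ a.1}

/-- An analytic curve: the graph of a real-analytic function with the period one. -/
def IsAnalyticCurve (Γ : Set Cyl) : Prop :=
  ∃ γ : ℝ → ℝ, AnalyticOnNhd ℝ γ univ ∧ (∀ x, γ (x + 1) = γ x) ∧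
    Γ = cov '' {p | p.2 = γ p.1}

/-- an integer valued continuous function on a connected space is constant -/
theorem int_const {X : Type*} [TopologicalSpace X] [PreconnectedSpace X] (g : X → ℝ)
    (hg : Continuous g) (hz : ∀ x, ∃ k : ℤ, g x = k) (x y : X) : g x = g y := by
  choose k hk using hz
  have hc : Continuous k := by
    rw [Int.isClosedEmbedding_coe_real.isEmbedding.continuous_iff]
    have : (Int.cast : ℤ → ℝ) ∘ k = g := by
      funext z
      exact (hk z).symm
    rw [this]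
    exact hg
  rw [hk x, hk y, PreconnectedSpace.constant inferInstance hc]

theorem coe_eq {a b : ℝ} (h : (a : UnitAddCircle) = (b : UnitAddCircle)) : ∃ k : ℤ, a - b = k := by
  have h1 : ((a - b : ℝ) : UnitAddCircle) = 0 := by
    rw [AddCircle.coe_sub, h, sub_self]
  obtain ⟨n, hn⟩ := (AddCircle.coe_eq_zero_iff (1 : ℝ)).1 h1
  refine ⟨n, ?_⟩
  rw [← hn]
  simp

theorem coe_add_one (x : ℝ) : ((x + 1 : ℝ) : UnitAddCircle) = (x : UnitAddCircle) := by
  have := AddCircle.coe_add_period (1 : ℝ) x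
  exact this

theorem coe_int_add (x : ℝ) (k : ℤ) : ((x + k : ℝ) : UnitAddCircle) = (x : UnitAddCircle) := by
  rw [AddCircle.coe_add]
  have : (((k : ℤ) : ℝ) : UnitAddCircle) = 0 := by
    rw [AddCircle.coe_eq_zero_iff]
    exact ⟨k, by simp⟩
  rw [this, add_zero]

/-- the lift of a map homotopic to the identity commutes with the deck translation -/
theorem deck (f : Cyl ≃ₜ Cyl)
    (hH : ContinuousMap.Homotopic (ContinuousMap.id Cyl) (f : C(Cyl, Cyl)))
    (F : ℝ × ℝ → ℝ × ℝ) (hF : Continuous F) (hl : ∀ p, cov (F p) = f (cov p)) (x y : ℝ) :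
    F (x + 1, y) = ((F (x, y)).1 + 1, (F (x, y)).2) := by
  have hcov : ∀ x y : ℝ, cov (x + 1, y) = cov (x, y) := fun x y => by
    unfold cov
    rw [coe_add_one]
  have h0 : ∀ x y : ℝ, cov (F (x + 1, y)) = cov (F (x, y)) := fun x y => by
    rw [hl, hl, hcov]
  have h2 : ∀ x y : ℝ, (F (x + 1, y)).2 = (F (x, y)).2 := fun x y => by
    have h := h0 x y
    unfold cov at h
    exact (Prod.mk.inj h).2
  have h1 : ∀ x y : ℝ, ∃ k : ℤ, (F (x + 1, y)).1 - (F (x, y)).1 = k := fun x y => by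
    have h := h0 x y
    unfold cov at h
    exact coe_eq (Prod.mk.inj h).1
  obtain ⟨H⟩ := hH
  -- the lift of the homotopy on the circle `y = 0`
  let G : C(ℝ × ℝ, UnitAddCircle) :=
    ⟨fun q => (H (Set.projIcc (0 : ℝ) 1 zero_le_one q.1, ((q.2 : UnitAddCircle), (0 : ℝ)))).1, by
      refine continuous_fst.comp (H.continuous.comp ?_)
      refine Continuous.prodMk (continuous_projIcc.comp continuous_fst) ?_
      exact Continuous.prodMk ((AddCircle.continuous_mk' (1 : ℝ)).comp continuous_snd)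
        continuous_const⟩
  have hG0 : ∀ x : ℝ, G (0, x) = (x : UnitAddCircle) := fun x => by
    change (H (Set.projIcc (0 : ℝ) 1 zero_le_one 0, ((x : UnitAddCircle), (0 : ℝ)))).1 = _
    rw [Set.projIcc_left]
    exact congrArg Prod.fst (H.apply_zero ((x : UnitAddCircle), (0 : ℝ)))
  have hG1 : ∀ x : ℝ, G (1, x) = (f ((x : UnitAddCircle), (0 : ℝ))).1 := fun x => by
    change (H (Set.projIcc (0 : ℝ) 1 zero_le_one 1, ((x : UnitAddCircle), (0 : ℝ)))).1 = _
    rw [Set.projIcc_right]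
    exact congrArg Prod.fst (H.apply_one ((x : UnitAddCircle), (0 : ℝ)))
  have hGp : ∀ t x : ℝ, G (t, x + 1) = G (t, x) := fun t x => by
    change (H (_, (((x + 1 : ℝ) : UnitAddCircle), (0 : ℝ)))).1 = (H (_, ((x : UnitAddCircle), (0 : ℝ)))).1
    rw [coe_add_one]
  have hsc : SimplyConnectedSpace (ℝ × ℝ) := inferInstance
  obtain ⟨g, ⟨-, hg⟩, -⟩ :=
    (AddCircle.isCoveringMap_coe (1 : ℝ)).existsUnique_continuousMap_lifts G (0, 0) 0 (by
      rw [hG0])
  have hg' : ∀ q : ℝ × ℝ, ((g q : ℝ) : UnitAddCircle) = G q := fun q => congrFun hg q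
  -- the degree is constant in `t`
  have d1 : g (0, 0 + 1) - g (0, 0) = g (1, 0 + 1) - g (1, 0) := by
    have hc : Continuous fun t : ℝ => g (t, 0 + 1) - g (t, 0) :=
      (g.continuous.comp (Continuous.prodMk continuous_id continuous_const)).sub
        (g.continuous.comp (Continuous.prodMk continuous_id continuous_const))
    exact int_const (fun t : ℝ => g (t, 0 + 1) - g (t, 0)) hc
      (fun t => coe_eq (by rw [hg', hg', hGp])) 0 1
  have d2 : g (0, 0 + 1) - (0 + 1) = g (0, 0) - 0 := by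
    have hc : Continuous fun x : ℝ => g (0, x) - x :=
      (g.continuous.comp (Continuous.prodMk continuous_const continuous_id)).sub continuous_id
    exact int_const (fun x : ℝ => g (0, x) - x) hc
      (fun x => coe_eq (by rw [hg', hG0])) (0 + 1) 0
  have d3 : g (1, 0 + 1) - (F (0 + 1, 0)).1 = g (1, 0) - (F (0, 0)).1 := by
    have hc : Continuous fun x : ℝ => g (1, x) - (F (x, 0)).1 :=
      (g.continuous.comp (Continuous.prodMk continuous_const continuous_id)).sub
        (continuous_fst.comp (hF.comp (Continuous.prodMk continuous_id continuous_const)))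
    exact int_const (fun x : ℝ => g (1, x) - (F (x, 0)).1) hc
      (fun x => coe_eq (by
        rw [hg', hG1]
        have h := hl (x, 0)
        unfold cov at h
        exact (congrArg Prod.fst h).symm)) (0 + 1) 0
  have d4 : (F (x + 1, y)).1 - (F (x, y)).1 = (F (0 + 1, 0)).1 - (F (0, 0)).1 := by
    have hc : Continuous fun p : ℝ × ℝ => (F (p.1 + 1, p.2)).1 - (F (p.1, p.2)).1 :=
      (continuous_fst.comp (hF.comp (Continuous.prodMk (continuous_fst.add continuous_const)
        continuous_snd))).sub (continuous_fst.comp (hF.comp (Continuous.prodMk continuous_fst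
          continuous_snd)))
    exact int_const (fun p : ℝ × ℝ => (F (p.1 + 1, p.2)).1 - (F (p.1, p.2)).1) hc
      (fun p => h1 p.1 p.2) (x, y) (0, 0)
  refine Prod.ext ?_ (h2 x y)
  change (F (x + 1, y)).1 = (F (x, y)).1 + 1
  linarith

/-- **Theorem.** Every leaf of a partition of the cylinder into invariant curves of an analytic
twist map is an analytic curve. -/
theorem result : ∀ (f : Cyl ≃ₜ Cyl) (L : Set (Set Cyl)), IsAnalyticTwistMap f →
    Setoid.IsPartition L → (∀ Γ ∈ L, IsInvariantCurve f Γ) → ∀ Γ ∈ L, IsAnalyticCurve Γ := by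
  intro f L hf hL hinv
  obtain ⟨hH, F, hl, hFan, hdet, htw⟩ := hf
  have hFc : Continuous F := by
    rw [← continuousOn_univ]
    exact hFan.continuousOn
  have hdeck := deck f hH F hFc hl
  have hdeckZ : ∀ (k : ℤ) (x y : ℝ), F (x + k, y) = ((F (x, y)).1 + k, (F (x, y)).2) := by
    intro k
    induction k using Int.induction_on with
    | zero => intro x y; simp
    | succ n ih =>
      intro x y
      have h := hdeck (x + n) y
      have h' := ih x y
      push_cast at h' ⊢
      rw [← add_assoc, h, h']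
      simp [add_assoc]
    | pred n ih =>
      intro x y
      have h := hdeck (x + (-(n : ℝ) - 1)) y
      have h' := ih x y
      push_cast at h' ⊢
      rw [show x + (-(n : ℝ) - 1) + 1 = x + -(n : ℝ) by ring, h'] at h
      have e1 := congrArg Prod.fst h
      have e2 := congrArg Prod.snd h
      refine Prod.ext ?_ ?_
      · change (F (x + (-(n : ℝ) - 1), y)).1 = (F (x, y)).1 + (-(n : ℝ) - 1)
        change (F (x, y)).1 + -(n : ℝ) = (F (x + (-(n : ℝ) - 1), y)).1 + 1 at e1
        linarith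
      · change (F (x + (-(n : ℝ) - 1), y)).2 = (F (x, y)).2
        exact e2.symm
  have hcovs : ∀ a : Cyl, ∃ p : ℝ × ℝ, cov p = a := by
    rintro ⟨a, y⟩
    obtain ⟨x, rfl⟩ := QuotientAddGroup.mk_surjective a
    exact ⟨(x, y), rfl⟩
  have hcoveq : ∀ p q : ℝ × ℝ, cov p = cov q → ∃ k : ℤ, p = (q.1 + k, q.2) := by
    intro p q h
    unfold cov at h
    obtain ⟨h1, h2⟩ := Prod.mk.inj h
    obtain ⟨k, hk⟩ := coe_eq h1
    refine ⟨k, Prod.ext ?_ h2⟩
    change p.1 = q.1 + k
    linarith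
  have hbij : Function.Bijective F := by
    constructor
    · intro p q hpq
      have h1 : f (cov p) = f (cov q) := by rw [← hl, ← hl, hpq]
      obtain ⟨k, hk⟩ := hcoveq p q (f.injective h1)
      rw [hk, hdeckZ] at hpq
      have h3 : (F q).1 + k = (F q).1 := congrArg Prod.fst hpq
      have h4 : (k : ℝ) = 0 := by linarith
      rw [hk, h4, add_zero]
    · intro r
      obtain ⟨p, hp⟩ := hcovs (f.symm (cov r))
      have h1 : cov (F p) = cov r := by rw [hl, hp, f.apply_symm_apply]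
      obtain ⟨k, hk⟩ := hcoveq _ _ h1
      refine ⟨(p.1 + ((-k : ℤ) : ℝ), p.2), ?_⟩
      rw [hdeckZ, show ((p.1, p.2) : ℝ × ℝ) = p from rfl, hk]
      refine Prod.ext ?_ rfl
      change r.1 + k + ((-k : ℤ) : ℝ) = r.1
      push_cast
      ring
  -- the leaf through a point of the line `x = 0`
  have hleaf : ∀ c : ℝ, ∃ Γ ∈ L, (((0 : ℝ) : UnitAddCircle), c) ∈ Γ := fun c => by
    obtain ⟨Γ, ⟨h1, h2⟩, -⟩ := hL.2 (((0 : ℝ) : UnitAddCircle), c)
    exact ⟨Γ, h1, h2⟩
  choose Lf hLf hLc using hleaf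
  have hgr : ∀ c : ℝ, ∃ γ : UnitAddCircle → ℝ, Continuous γ ∧ Lf c = {a | a.2 = γ a.1} := fun c =>
    (hinv _ (hLf c)).2
  choose γ hγc hγ using hgr
  have hmem : ∀ (c : ℝ) (a : Cyl), a ∈ Lf c ↔ a.2 = γ c a.1 := fun c a => by
    rw [hγ c]
    rfl
  have huniq : ∀ (Γ Γ' : Set Cyl), Γ ∈ L → Γ' ∈ L → ∀ a, a ∈ Γ → a ∈ Γ' → Γ = Γ' := by
    intro Γ Γ' h h' a ha ha'
    exact (hL.2 a).unique ⟨h, ha⟩ ⟨h', ha'⟩
  -- every leaf is one of the `Lf c`
  have hall : ∀ Γ ∈ L, ∃ c, Γ = Lf c := by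
    intro Γ hΓ
    obtain ⟨-, g, -, hg⟩ := hinv Γ hΓ
    refine ⟨g ((0 : ℝ) : UnitAddCircle), huniq _ _ hΓ (hLf _) _ ?_ (hLc _)⟩
    rw [hg]
    rfl
  have key := Pool.Agent.Helper76.FT.assemble Pool.Agent.Helper76.FT.c_sys
    Pool.Agent.Helper76.FT.c_gmain F (fun c x => γ c (x : UnitAddCircle)) hFan hbij hdeck hdet htw
    (fun c => (hγc c).comp (AddCircle.continuous_mk' (1 : ℝ)))
    (fun c x => by rw [coe_add_one])
    (fun c x => by
      have h1 : cov (x, γ c (x : UnitAddCircle)) ∈ Lf c := (hmem _ _).2 rfl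
      have h2 : f (cov (x, γ c (x : UnitAddCircle))) ∈ Lf c := by
        rw [← (hinv _ (hLf c)).1]
        exact ⟨_, h1, rfl⟩
      rw [← hl] at h2
      exact (hmem _ _).1 h2)
    (fun p => by
      obtain ⟨Γ, ⟨h1, h2⟩, -⟩ := hL.2 (cov p)
      obtain ⟨c, hc⟩ := hall Γ h1
      refine ⟨c, ?_, ?_⟩
      · rw [hc] at h2
        exact (hmem _ _).1 h2
      · intro c' hc'
        have h3 : cov p ∈ Lf c' := (hmem _ _).2 hc'
        have h4 : Lf c' = Lf c := huniq _ _ (hLf _) (hLf _) _ h3 (hc ▸ h2)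
        have h5 : (((0 : ℝ) : UnitAddCircle), c') ∈ Lf c := h4 ▸ hLc c'
        have h6 : c' = γ c ((0 : ℝ) : UnitAddCircle) := (hmem _ _).1 h5
        have h7 : c = γ c ((0 : ℝ) : UnitAddCircle) := (hmem _ _).1 (hLc c)
        rw [h6, ← h7])
  intro Γ hΓ
  obtain ⟨c, hc⟩ := hall Γ hΓ
  refine ⟨fun x => γ c (x : UnitAddCircle), key c, fun x => ?_, ?_⟩
  · change γ c ((x + 1 : ℝ) : UnitAddCircle) = γ c (x : UnitAddCircle)
    rw [coe_add_one]
  · rw [hc]
    ext a
    rw [hmem]
    constructor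
    · intro ha
      obtain ⟨p, rfl⟩ := hcovs a
      exact ⟨p, ha, rfl⟩
    · rintro ⟨p, hp, rfl⟩
      exact hp

end Pool.Agent.Results.MP_39e2b7_an.AnalyticLeaves
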